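import Mathlib
import Pool.Agent.V1112.HopfGen

/-!
# A finite-dimensional Hopf algebra extension with infinite factorization index

Over a field `k` of characteristic two and `τ ≠ 0` in `k` let `E` be the algebra generated by `s`, `u`
with `s ^ 2 = s`, `s u + u s = u`, `u ^ 4 = τ u ^ 2`; it is an eight-dimensional Hopf algebra with
`s`, `u` primitive (the restricted enveloping algebra of a three-dimensional restricted Lie
algebra). The Hopf subalgebra `A = k[s]` has the complements `k[s + c u]`, `c ≠ 0`. For `k = F₂(t)`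
and `τ = t` the complements for `c = t ^ j` are pairwise non-isomorphic.
-/

set_option autoImplicit false

namespace Pool.Agent.Results.MP_d8e1db_al.InfiniteIndex

open TensorProduct Coalgebra

/-- `A` is a Hopf subalgebra of the Hopf algebra `E`. -/
structure IsHopfSubalgebra {k E : Type*} [Field k] [Ring E] [HopfAlgebra k E]
    (A : Subalgebra k E) : Prop where
  /-- `Δ(A) ⊆ A ⊗ A`. -/
  comul_mem : ∀ a ∈ A, comul (R := k) a ∈ (Algebra.TensorProduct.map A.val A.val).range
  /-- `S(A) ⊆ A`. -/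
  antipode_mem : ∀ a ∈ A, HopfAlgebra.antipode k a ∈ A

/-- `H` is an `A`-complement of `E`: the multiplication map `A ⊗ H → E`, `a ⊗ h ↦ a h`, is
bijective. -/
def IsComplement {k E : Type*} [Field k] [Ring E] [HopfAlgebra k E] (A H : Subalgebra k E) : Prop :=
  Function.Bijective
    (LinearMap.mul' k E ∘ₗ TensorProduct.map A.val.toLinearMap H.val.toLinearMap)

/-- `E` is finite-dimensional and has a Hopf subalgebra `A` for which there are infinitely many
pairwise non-isomorphic Hopf subalgebras that are `A`-complements. -/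
def HasInfiniteIndex (k E : Type*) [Field k] [Ring E] [HopfAlgebra k E] : Prop :=
  FiniteDimensional k E ∧ ∃ A : Subalgebra k E, IsHopfSubalgebra A ∧
    ∃ H : ℕ → Subalgebra k E, (∀ n, IsHopfSubalgebra (H n) ∧ IsComplement A (H n)) ∧
      ∀ m n, m ≠ n → IsEmpty (H m ≃ₐ[k] H n)

section construction

set_option linter.unusedSectionVars false

variable (k : Type) [Field k] [CharP k 2] (τ : k)

theorem add_self' {M : Type*} [AddCommGroup M] [Module k M] (x : M) : x + x = 0 := by
  rw [← two_smul k x, CharTwo.two_eq_zero, zero_smul]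

/-- The defining relations, with `ι false = s` and `ι true = u`. -/
inductive Rel : FreeAlgebra k Bool → FreeAlgebra k Bool → Prop
  | ss : Rel (FreeAlgebra.ι k false * FreeAlgebra.ι k false) (FreeAlgebra.ι k false)
  | su : Rel (FreeAlgebra.ι k false * FreeAlgebra.ι k true +
      FreeAlgebra.ι k true * FreeAlgebra.ι k false) (FreeAlgebra.ι k true)
  | uuuu : Rel (FreeAlgebra.ι k true * FreeAlgebra.ι k true *
      (FreeAlgebra.ι k true * FreeAlgebra.ι k true))
      (τ • (FreeAlgebra.ι k true * FreeAlgebra.ι k true))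

/-- The algebra `E`. -/
def E : Type := RingQuot (Rel k τ)

noncomputable instance : Ring (E k τ) := inferInstanceAs (Ring (RingQuot (Rel k τ)))

noncomputable instance : Algebra k (E k τ) := inferInstanceAs (Algebra k (RingQuot (Rel k τ)))

/-- The quotient map. -/
noncomputable def mk : FreeAlgebra k Bool →ₐ[k] E k τ := RingQuot.mkAlgHom k (Rel k τ)

/-- The generator `s`. -/
noncomputable def s : E k τ := mk k τ (FreeAlgebra.ι k false)

/-- The generator `u`. -/
noncomputable def u : E k τ := mk k τ (FreeAlgebra.ι k true)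

theorem ss : s k τ * s k τ = s k τ := by
  rw [s, ← map_mul]
  exact RingQuot.mkAlgHom_rel k (Rel.ss (k := k) (τ := τ))

theorem su : s k τ * u k τ + u k τ * s k τ = u k τ := by
  rw [s, u, ← map_mul, ← map_mul, ← map_add]
  exact RingQuot.mkAlgHom_rel k (Rel.su (k := k) (τ := τ))

theorem uuuu : u k τ * u k τ * (u k τ * u k τ) = τ • (u k τ * u k τ) := by
  rw [u, ← map_mul, ← map_mul, ← map_smul]
  exact RingQuot.mkAlgHom_rel k (Rel.uuuu (k := k) (τ := τ))

theorem us : u k τ * s k τ = u k τ + s k τ * u k τ := by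
  have h := su k τ
  linear_combination (norm := module) h - add_self' k (s k τ * u k τ)

variable {k τ}

/-- The universal property of `E`. -/
noncomputable def lift {B : Type*} [Ring B] [Algebra k B] (S U : B) (h1 : S * S = S)
    (h2 : S * U + U * S = U) (h3 : U * U * (U * U) = τ • (U * U)) : E k τ →ₐ[k] B :=
  RingQuot.liftAlgHom k ⟨FreeAlgebra.lift k (fun b => if b then U else S), by
    intro x y h
    cases h with
    | ss => simpa using h1
    | su => simpa using h2
    | uuuu => simpa using h3⟩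

theorem lift_s {B : Type*} [Ring B] [Algebra k B] (S U : B) (h1 : S * S = S)
    (h2 : S * U + U * S = U) (h3 : U * U * (U * U) = τ • (U * U)) :
    lift (τ := τ) S U h1 h2 h3 (s k τ) = S := by
  refine (RingQuot.liftAlgHom_mkAlgHom_apply k _ _ _).trans ?_
  simp

theorem lift_u {B : Type*} [Ring B] [Algebra k B] (S U : B) (h1 : S * S = S)
    (h2 : S * U + U * S = U) (h3 : U * U * (U * U) = τ • (U * U)) :
    lift (τ := τ) S U h1 h2 h3 (u k τ) = U := by
  refine (RingQuot.liftAlgHom_mkAlgHom_apply k _ _ _).trans ?_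
  simp

theorem hom_ext {B : Type*} [Ring B] [Algebra k B] {f g : E k τ →ₐ[k] B}
    (h1 : f (s k τ) = g (s k τ)) (h2 : f (u k τ) = g (u k τ)) : f = g := by
  apply RingQuot.ringQuot_ext'
  apply FreeAlgebra.hom_ext
  ext b
  cases b
  · exact h1
  · exact h2

variable (k τ)

theorem adjoin_eq : Algebra.adjoin k ({s k τ, u k τ} : Set (E k τ)) = ⊤ := by
  have h : (AlgHom.id k (E k τ)).range ≤ Algebra.adjoin k ({s k τ, u k τ} : Set (E k τ)) := by
    let S := Algebra.adjoin k ({s k τ, u k τ} : Set (E k τ))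
    let s' : S := ⟨s k τ, Algebra.subset_adjoin (by simp)⟩
    let u' : S := ⟨u k τ, Algebra.subset_adjoin (by simp)⟩
    let f : E k τ →ₐ[k] S := lift s' u' (Subtype.ext (ss k τ)) (Subtype.ext (su k τ))
      (Subtype.ext (uuuu k τ))
    have hf : S.val.comp f = AlgHom.id k (E k τ) := by
      apply hom_ext
      · simp only [AlgHom.comp_apply, f, lift_s]; rfl
      · simp only [AlgHom.comp_apply, f, lift_u]; rfl
    rw [← hf]
    rintro _ ⟨x, rfl⟩
    exact (f x).2
  rw [eq_top_iff]
  intro x _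
  exact h ⟨x, rfl⟩

/-- The comultiplication. -/
noncomputable def Δ : E k τ →ₐ[k] E k τ ⊗[k] E k τ :=
  lift (s k τ ⊗ₜ 1 + 1 ⊗ₜ s k τ) (u k τ ⊗ₜ 1 + 1 ⊗ₜ u k τ)
    (by
      simp only [mul_add, add_mul, Algebra.TensorProduct.tmul_mul_tmul, ss, mul_one, one_mul]
      linear_combination (norm := module) add_self' k (s k τ ⊗ₜ[k] s k τ))
    (by
      simp only [mul_add, add_mul, Algebra.TensorProduct.tmul_mul_tmul, us, mul_one, one_mul,
        add_tmul, tmul_add]
      linear_combination (norm := module) add_self' k ((s k τ * u k τ) ⊗ₜ[k] (1 : E k τ)) +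
        add_self' k ((1 : E k τ) ⊗ₜ[k] (s k τ * u k τ)) + add_self' k (u k τ ⊗ₜ[k] s k τ) +
        add_self' k (s k τ ⊗ₜ[k] u k τ))
    (by
      have h : (u k τ ⊗ₜ[k] (1 : E k τ) + 1 ⊗ₜ u k τ) * (u k τ ⊗ₜ 1 + 1 ⊗ₜ u k τ) =
          (u k τ * u k τ) ⊗ₜ 1 + 1 ⊗ₜ (u k τ * u k τ) := by
        simp only [mul_add, add_mul, Algebra.TensorProduct.tmul_mul_tmul, mul_one, one_mul]
        linear_combination (norm := module) add_self' k (u k τ ⊗ₜ[k] u k τ)
      rw [h]
      simp only [mul_add, add_mul, Algebra.TensorProduct.tmul_mul_tmul, mul_one, one_mul, uuuu,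
        smul_add, smul_tmul', tmul_smul]
      linear_combination (norm := module) add_self' k ((u k τ * u k τ) ⊗ₜ[k] (u k τ * u k τ)))

/-- The counit. -/
noncomputable def ε : E k τ →ₐ[k] k := lift 0 0 (by simp) (by simp) (by simp)

theorem Δ_s : Δ k τ (s k τ) = s k τ ⊗ₜ 1 + 1 ⊗ₜ s k τ := lift_s _ _ _ _ _

theorem Δ_u : Δ k τ (u k τ) = u k τ ⊗ₜ 1 + 1 ⊗ₜ u k τ := lift_u _ _ _ _ _

theorem ε_s : ε k τ (s k τ) = 0 := lift_s _ _ _ _ _

theorem ε_u : ε k τ (u k τ) = 0 := lift_u _ _ _ _ _

/-- The bialgebra structure. -/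
noncomputable abbrev bialg : Bialgebra k (E k τ) :=
  Bialgebra.ofAlgHom (Δ k τ) (ε k τ)
    (by
      apply hom_ext
      · simp [Δ_s, tmul_add, add_tmul, Algebra.TensorProduct.one_def, add_assoc]
      · simp [Δ_u, tmul_add, add_tmul, Algebra.TensorProduct.one_def, add_assoc])
    (by
      apply hom_ext
      · simp [Δ_s, ε_s]
      · simp [Δ_u, ε_u])
    (by
      apply hom_ext
      · simp [Δ_s, ε_s]
      · simp [Δ_u, ε_u])

/-- The antipode as an algebra homomorphism to the opposite algebra. -/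
noncomputable def Sop : E k τ →ₐ[k] (E k τ)ᵐᵒᵖ :=
  lift (MulOpposite.op (s k τ)) (MulOpposite.op (u k τ))
    (by rw [← MulOpposite.op_mul, ss])
    (by rw [← MulOpposite.op_mul, ← MulOpposite.op_mul, ← MulOpposite.op_add, add_comm, su])
    (by rw [← MulOpposite.op_mul, ← MulOpposite.op_mul, uuuu, MulOpposite.op_smul])

/-- The antipode. -/
noncomputable def S : E k τ →ₗ[k] E k τ :=
  (MulOpposite.opLinearEquiv k).symm.toLinearMap ∘ₗ (Sop k τ).toLinearMap

theorem S_apply (x : E k τ) : S k τ x = MulOpposite.unop (Sop k τ x) := rfl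

theorem S_s : S k τ (s k τ) = s k τ := by rw [S_apply, Sop, lift_s, MulOpposite.unop_op]

theorem S_u : S k τ (u k τ) = u k τ := by rw [S_apply, Sop, lift_u, MulOpposite.unop_op]

theorem S_one : S k τ 1 = 1 := by rw [S_apply, map_one, MulOpposite.unop_one]

theorem S_mul (x y : E k τ) : S k τ (x * y) = S k τ y * S k τ x := by
  rw [S_apply, S_apply, S_apply, map_mul, MulOpposite.unop_mul]

/-- The Hopf algebra structure. -/
noncomputable abbrev hopf : HopfAlgebra k (E k τ) :=
  letI := bialg k τ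
  Pool.Agent.V1112.HopfGen.ofGenerators {s k τ, u k τ} (adjoin_eq k τ) (S k τ) (S_mul k τ)
    (S_one k τ)
    (by
      rintro a (rfl | rfl)
      · change LinearMap.mul' k (E k τ) ((S k τ).rTensor (E k τ) (Δ k τ (s k τ))) =
          algebraMap k (E k τ) (ε k τ (s k τ))
        simp [Δ_s, ε_s, S_s, S_one, add_self' k]
      · change LinearMap.mul' k (E k τ) ((S k τ).rTensor (E k τ) (Δ k τ (u k τ))) =
          algebraMap k (E k τ) (ε k τ (u k τ))
        simp [Δ_u, ε_u, S_u, S_one, add_self' k])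
    (by
      rintro a (rfl | rfl)
      · change LinearMap.mul' k (E k τ) ((S k τ).lTensor (E k τ) (Δ k τ (s k τ))) =
          algebraMap k (E k τ) (ε k τ (s k τ))
        simp [Δ_s, ε_s, S_s, S_one, add_self' k]
      · change LinearMap.mul' k (E k τ) ((S k τ).lTensor (E k τ) (Δ k τ (u k τ))) =
          algebraMap k (E k τ) (ε k τ (u k τ))
        simp [Δ_u, ε_u, S_u, S_one, add_self' k])

/-! ### The algebra structure of `E` -/

theorem U_sq (a b : k) : (!![0, a; b, 0] : Matrix (Fin 2) (Fin 2) k) * !![0, a; b, 0] =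
    (a * b) • (1 : Matrix (Fin 2) (Fin 2) k) := by
  rw [Matrix.mul_fin_two, Matrix.one_fin_two, Matrix.smul_of]
  simp [mul_comm]

/-- The representations of `E`. -/
noncomputable def rep (a b : k) (h : (a * b) * (a * b) = τ * (a * b)) :
    E k τ →ₐ[k] Matrix (Fin 2) (Fin 2) k :=
  lift !![1, 0; 0, 0] !![0, a; b, 0]
    (by ext i j; fin_cases i <;> fin_cases j <;> simp [Matrix.mul_apply, Fin.sum_univ_two])
    (by ext i j; fin_cases i <;> fin_cases j <;> simp [Matrix.mul_apply, Fin.sum_univ_two])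
    (by rw [U_sq, smul_mul_smul_comm, mul_one, h, mul_smul])

theorem rep_s (a b : k) (h : (a * b) * (a * b) = τ * (a * b)) :
    rep k τ a b h (s k τ) = !![1, 0; 0, 0] := lift_s _ _ _ _ _

theorem rep_u (a b : k) (h : (a * b) * (a * b) = τ * (a * b)) :
    rep k τ a b h (u k τ) = !![0, a; b, 0] := lift_u _ _ _ _ _

/-- The monomials `s ^ i u ^ j`. -/
noncomputable def mon (p : Fin 2 × Fin 4) : E k τ := s k τ ^ (p.1 : ℕ) * u k τ ^ (p.2 : ℕ)

theorem span_mon : Submodule.span k (Set.range (mon k τ)) = ⊤ := by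
  have hmul : ∀ a ∈ ({s k τ, u k τ} : Set (E k τ)), ∀ x ∈ Submodule.span k (Set.range (mon k τ)),
      a * x ∈ Submodule.span k (Set.range (mon k τ)) := by
    have hm : ∀ p, mon k τ p ∈ Submodule.span k (Set.range (mon k τ)) :=
      fun p => Submodule.subset_span ⟨p, rfl⟩
    have hu4 : u k τ ^ 4 = τ • u k τ ^ 2 := by
      have := uuuu k τ
      rw [pow_succ, pow_succ, pow_two]
      simpa [mul_assoc] using this
    have hs : ∀ p, s k τ * mon k τ p ∈ Submodule.span k (Set.range (mon k τ)) := by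
      rintro ⟨i, j⟩
      have : s k τ * mon k τ (i, j) = mon k τ (1, j) := by
        fin_cases i
        · simp [mon]
        · simp only [mon]
          rw [← mul_assoc]
          simp [ss]
      rw [this]
      exact hm _
    have hu1 : ∀ j : Fin 4, u k τ * u k τ ^ (j : ℕ) ∈ Submodule.span k (Set.range (mon k τ)) ∧
        s k τ * (u k τ * u k τ ^ (j : ℕ)) ∈ Submodule.span k (Set.range (mon k τ)) := by
      intro j
      rw [← pow_succ']
      fin_cases j
      · exact ⟨by simpa [mon] using hm (0, 1), by simpa [mon] using hm (1, 1)⟩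
      · exact ⟨by simpa [mon] using hm (0, 2), by simpa [mon] using hm (1, 2)⟩
      · exact ⟨by simpa [mon] using hm (0, 3), by simpa [mon] using hm (1, 3)⟩
      · simp only [Nat.reduceAdd, hu4, mul_smul_comm]
        exact ⟨Submodule.smul_mem _ _ (by simpa [mon] using hm (0, 2)),
          Submodule.smul_mem _ _ (by simpa [mon] using hm (1, 2))⟩
    rintro a (rfl | rfl) x hx
    · induction hx using Submodule.span_induction with
      | mem x h => obtain ⟨p, rfl⟩ := h; exact hs p
      | zero => rw [mul_zero]; exact zero_mem _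
      | add x y _ _ hx hy => rw [mul_add]; exact add_mem hx hy
      | smul c x _ hx => rw [mul_smul_comm]; exact Submodule.smul_mem _ _ hx
    · induction hx using Submodule.span_induction with
      | mem x h =>
        obtain ⟨⟨i, j⟩, rfl⟩ := h
        fin_cases i
        · simpa [mon] using (hu1 j).1
        · have : u k τ * mon k τ (1, j) =
              u k τ * u k τ ^ (j : ℕ) + s k τ * (u k τ * u k τ ^ (j : ℕ)) := by
            simp only [mon]
            rw [← mul_assoc, Fin.val_one, pow_one, us, add_mul, mul_assoc]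
          simp only [Fin.mk_one, this]
          exact add_mem (hu1 j).1 (hu1 j).2
      | zero => rw [mul_zero]; exact zero_mem _
      | add x y _ _ hx hy => rw [mul_add]; exact add_mem hx hy
      | smul c x _ hx => rw [mul_smul_comm]; exact Submodule.smul_mem _ _ hx
  rw [eq_top_iff]
  rintro x -
  have hx : x ∈ Algebra.adjoin k ({s k τ, u k τ} : Set (E k τ)) := by
    rw [adjoin_eq]; trivial
  have key : ∀ y ∈ Submodule.span k (Set.range (mon k τ)),
      x * y ∈ Submodule.span k (Set.range (mon k τ)) := by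
    refine Algebra.adjoin_induction (p := fun x _ => ∀ y ∈ Submodule.span k (Set.range (mon k τ)),
      x * y ∈ Submodule.span k (Set.range (mon k τ))) ?_ ?_ ?_ ?_ hx
    · exact hmul
    · intro r y hy
      rw [← Algebra.smul_def]
      exact Submodule.smul_mem _ _ hy
    · intro x x' _ _ h h' y hy
      rw [add_mul]
      exact add_mem (h y hy) (h' y hy)
    · intro x x' _ _ h h' y hy
      rw [mul_assoc]
      exact h _ (h' y hy)
  have h1 : (1 : E k τ) ∈ Submodule.span k (Set.range (mon k τ)) :=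
    Submodule.subset_span ⟨(0, 0), by simp [mon]⟩
  simpa using key 1 h1

theorem linearIndependent_mon (hτ : τ ≠ 0) : LinearIndependent k (mon k τ) := by
  rw [Fintype.linearIndependent_iff]
  intro g hg
  have h1 := congrArg (rep k τ τ 1 (by ring)) hg
  have h2 := congrArg (rep k τ 0 1 (by ring)) hg
  have h3 := congrArg (rep k τ 1 0 (by ring)) hg
  rw [map_zero, map_sum] at h1 h2 h3
  simp only [Fintype.sum_prod_type, Fin.sum_univ_two, Fin.sum_univ_four, map_smul, mon, map_mul,
    map_pow, rep_s, rep_u] at h1 h2 h3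
  simp only [pow_succ, pow_zero, one_mul, Fin.val_zero, Fin.val_one, Fin.isValue,
    show ((2 : Fin 4) : ℕ) = 2 from rfl, show ((3 : Fin 4) : ℕ) = 3 from rfl] at h1 h2 h3
  have e1 : ∀ i j, _ := fun i j => congrFun (congrFun h1 i) j
  have e2 : ∀ i j, _ := fun i j => congrFun (congrFun h2 i) j
  have e3 : ∀ i j, _ := fun i j => congrFun (congrFun h3 i) j
  have a00 := e1 0 0
  have a01 := e1 0 1
  have a10 := e1 1 0
  have a11 := e1 1 1
  have b00 := e2 0 0
  have b01 := e2 0 1
  have b10 := e2 1 0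
  have b11 := e2 1 1
  have c00 := e3 0 0
  have c01 := e3 0 1
  have c10 := e3 1 0
  have c11 := e3 1 1
  simp at a00 a01 a10 a11 b00 b01 b10 b11 c00 c01 c10 c11
  have z1 : g (1, 0) = 0 := by simpa [b11] using b00
  have z2 : g (1, 1) = 0 := by simpa [b10] using c01
  have z3 : g (0, 2) = 0 := by simpa [b11, hτ] using a11
  have z4 : g (1, 2) = 0 := by simpa [b11, z1, z3, hτ] using a00
  have z5 : g (0, 3) = 0 := by simpa [b10, hτ] using a10
  have z6 : g (1, 3) = 0 := by simpa [b10, z2, z5, hτ] using a01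
  rintro ⟨i, j⟩
  fin_cases i <;> fin_cases j <;> assumption

theorem finrank_E (hτ : τ ≠ 0) : Module.finrank k (E k τ) = 8 := by
  have := Module.finrank_eq_card_basis
    (Module.Basis.mk (linearIndependent_mon k τ hτ) (span_mon k τ).ge)
  simpa using this

instance : Module.Finite k (E k τ) := by
  classical
  refine ⟨⟨Finset.univ.image (mon k τ), ?_⟩⟩
  rw [Finset.coe_image, Finset.coe_univ, Set.image_univ]
  exact span_mon k τ

/-- The element `s + c u`. -/
noncomputable def y (c : k) : E k τ := s k τ + c • u k τ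

theorem y_sq (c : k) : y k τ c * y k τ c = y k τ c + c ^ 2 • (u k τ * u k τ) := by
  simp only [y, mul_add, add_mul, smul_mul_assoc, mul_smul_comm, ss, us]
  linear_combination (norm := module) c • add_self' k (s k τ * u k τ)

theorem y_w (c : k) : (y k τ c * y k τ c + y k τ c) * (y k τ c * y k τ c + y k τ c) =
    (c ^ 2 * τ) • (y k τ c * y k τ c + y k τ c) := by
  have h : y k τ c * y k τ c + y k τ c = c ^ 2 • (u k τ * u k τ) := by
    rw [y_sq]
    linear_combination (norm := module) add_self' k (y k τ c)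
  rw [h, smul_mul_smul_comm, uuuu, smul_smul, smul_smul]
  congr 1
  ring

theorem Δ_y (c : k) : Δ k τ (y k τ c) = y k τ c ⊗ₜ 1 + 1 ⊗ₜ y k τ c := by
  simp only [y, map_add, map_smul, Δ_s, Δ_u, add_tmul, tmul_add, smul_add, smul_tmul', tmul_smul]
  abel

theorem S_y (c : k) : S k τ (y k τ c) = y k τ c := by
  simp only [y, map_add, map_smul, S_s, S_u]

theorem isHopfSubalgebra (c : k) :
    letI := hopf k τ
    IsHopfSubalgebra (k := k) (E := E k τ) (Algebra.adjoin k {y k τ c}) := by
  letI := hopf k τ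
  refine ⟨fun a ha => ?_, fun a ha => ?_⟩
  · have h : Algebra.adjoin k {y k τ c} ≤
        (Algebra.TensorProduct.map (Algebra.adjoin k {y k τ c}).val
          (Algebra.adjoin k {y k τ c}).val).range.comap (Δ k τ) := by
      refine Algebra.adjoin_le ?_
      rintro _ rfl
      change Δ k τ (y k τ c) ∈ (Algebra.TensorProduct.map (Algebra.adjoin k {y k τ c}).val
          (Algebra.adjoin k {y k τ c}).val).range
      refine ⟨⟨y k τ c, Algebra.subset_adjoin rfl⟩ ⊗ₜ 1 +
        1 ⊗ₜ ⟨y k τ c, Algebra.subset_adjoin rfl⟩, ?_⟩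
      rw [Δ_y]
      simp
    exact h ha
  · change S k τ a ∈ Algebra.adjoin k {y k τ c}
    induction ha using Algebra.adjoin_induction with
    | mem x hx =>
      obtain rfl := hx
      rw [S_y]
      exact Algebra.subset_adjoin rfl
    | algebraMap r =>
      rw [Algebra.algebraMap_eq_smul_one, map_smul, S_one]
      exact Subalgebra.smul_mem _ (one_mem _) _
    | add x y _ _ hx hy => rw [map_add]; exact add_mem hx hy
    | mul x y _ _ hx hy => rw [S_mul]; exact mul_mem hy hx

theorem adjoin_le_span {E : Type*} [Ring E] [Algebra k E] (y : E) (n : ℕ)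
    (h : y ^ (n + 1) ∈ Submodule.span k (Set.range fun i : Fin (n + 1) => y ^ (i : ℕ))) :
    Subalgebra.toSubmodule (Algebra.adjoin k {y}) ≤
      Submodule.span k (Set.range fun i : Fin (n + 1) => y ^ (i : ℕ)) := by
  have hy : ∀ x ∈ Submodule.span k (Set.range fun i : Fin (n + 1) => y ^ (i : ℕ)),
      y * x ∈ Submodule.span k (Set.range fun i : Fin (n + 1) => y ^ (i : ℕ)) := by
    intro x hx
    induction hx using Submodule.span_induction with
    | mem x hx =>
      obtain ⟨i, rfl⟩ := hx
      simp only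
      rw [← pow_succ']
      rcases Nat.lt_or_ge (i + 1 : ℕ) (n + 1) with hi | hi
      · exact Submodule.subset_span ⟨⟨i + 1, hi⟩, rfl⟩
      · have : (i : ℕ) + 1 = n + 1 := le_antisymm i.2 hi
        rw [this]
        exact h
    | zero => rw [mul_zero]; exact zero_mem _
    | add x y _ _ hx hy => rw [mul_add]; exact add_mem hx hy
    | smul c x _ hx => rw [mul_smul_comm]; exact Submodule.smul_mem _ _ hx
  intro x hx
  have key : ∀ z ∈ Submodule.span k (Set.range fun i : Fin (n + 1) => y ^ (i : ℕ)),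
      x * z ∈ Submodule.span k (Set.range fun i : Fin (n + 1) => y ^ (i : ℕ)) := by
    refine Algebra.adjoin_induction (p := fun x _ => ∀ z ∈ Submodule.span k
      (Set.range fun i : Fin (n + 1) => y ^ (i : ℕ)),
      x * z ∈ Submodule.span k (Set.range fun i : Fin (n + 1) => y ^ (i : ℕ))) ?_ ?_ ?_ ?_ hx
    · rintro _ rfl
      exact hy
    · intro r z hz
      rw [← Algebra.smul_def]
      exact Submodule.smul_mem _ _ hz
    · intro x x' _ _ h h' z hz
      rw [add_mul]
      exact add_mem (h z hz) (h' z hz)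
    · intro x x' _ _ h h' z hz
      rw [mul_assoc]
      exact h _ (h' z hz)
  have h1 : (1 : E) ∈ Submodule.span k (Set.range fun i : Fin (n + 1) => y ^ (i : ℕ)) :=
    Submodule.subset_span ⟨0, by simp⟩
  simpa using key 1 h1

theorem finrank_adjoin_le {E : Type*} [Ring E] [Algebra k E] (y : E) (n : ℕ)
    (h : y ^ (n + 1) ∈ Submodule.span k (Set.range fun i : Fin (n + 1) => y ^ (i : ℕ))) :
    Module.finrank k (Algebra.adjoin k {y}) ≤ n + 1 := by
  have h1 := adjoin_le_span k y n h
  have h2 : Module.finrank k (Subalgebra.toSubmodule (Algebra.adjoin k {y})) ≤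
      Module.finrank k (Submodule.span k (Set.range fun i : Fin (n + 1) => y ^ (i : ℕ))) := by
    haveI : Module.Finite k (Submodule.span k (Set.range fun i : Fin (n + 1) => y ^ (i : ℕ))) :=
      Module.Finite.span_of_finite k (Set.finite_range _)
    exact Submodule.finrank_mono h1
  refine h2.trans ((finrank_range_le_card _).trans ?_)
  simp

theorem finrank_A_le : Module.finrank k (Algebra.adjoin k {s k τ}) ≤ 2 := by
  refine finrank_adjoin_le k (s k τ) 1 ?_
  refine Submodule.subset_span ⟨1, ?_⟩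
  simp [pow_succ, ss]

theorem finrank_H_le (c : k) : Module.finrank k (Algebra.adjoin k {y k τ c}) ≤ 4 := by
  refine finrank_adjoin_le k (y k τ c) 3 ?_
  have h := y_w k τ c
  set Y := y k τ c
  have h4 : Y ^ (3 + 1) = (c ^ 2 * τ) • Y ^ 1 + (c ^ 2 * τ + 1) • Y ^ 2 := by
    have e : Y ^ (3 + 1) = (Y * Y + Y) * (Y * Y + Y) - (Y ^ 3 + Y ^ 3) - Y ^ 2 := by noncomm_ring
    have e2 : Y ^ 2 + Y ^ 2 = 0 := add_self' k _
    rw [e, h, add_self' k]
    simp only [pow_one, pow_two] at e2 ⊢
    linear_combination (norm := module) -e2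
  rw [h4]
  exact add_mem (Submodule.smul_mem _ _ (Submodule.subset_span ⟨1, rfl⟩))
    (Submodule.smul_mem _ _ (Submodule.subset_span ⟨2, rfl⟩))

theorem isComplement (hτ : τ ≠ 0) (c : k) (hc : c ≠ 0) :
    letI := hopf k τ
    IsComplement (k := k) (E := E k τ) (Algebra.adjoin k {s k τ}) (Algebra.adjoin k {y k τ c}) := by
  letI := hopf k τ
  set A := Algebra.adjoin k {s k τ} with hA
  set H := Algebra.adjoin k {y k τ c} with hH
  have hsA : s k τ ∈ A := Algebra.subset_adjoin rfl
  have hyH : y k τ c ∈ H := Algebra.subset_adjoin rfl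
  let f : A ⊗[k] H →ₗ[k] E k τ :=
    LinearMap.mul' k (E k τ) ∘ₗ TensorProduct.map A.val.toLinearMap H.val.toLinearMap
  have hf : ∀ a ∈ A, ∀ h ∈ H, a * h ∈ LinearMap.range f := by
    intro a ha h hh
    exact ⟨⟨a, ha⟩ ⊗ₜ ⟨h, hh⟩, by simp [f]⟩
  have hu2 : u k τ * u k τ ∈ H := by
    have h : u k τ * u k τ = (c ^ 2)⁻¹ • (y k τ c * y k τ c + y k τ c) := by
      rw [y_sq]
      have : y k τ c + c ^ 2 • (u k τ * u k τ) + y k τ c = c ^ 2 • (u k τ * u k τ) := by
        linear_combination (norm := module) add_self' k (y k τ c)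
      rw [this, smul_smul, inv_mul_cancel₀ (pow_ne_zero 2 hc), one_smul]
    rw [h]
    exact H.smul_mem (add_mem (mul_mem hyH hyH) hyH) _
  have hu : u k τ = c⁻¹ • y k τ c + c⁻¹ • s k τ := by
    have h : c⁻¹ • y k τ c + c⁻¹ • s k τ = c⁻¹ • (s k τ + s k τ) + (c⁻¹ * c) • u k τ := by
      simp only [y, smul_add, smul_smul]
      abel
    rw [h, add_self' k, smul_zero, inv_mul_cancel₀ hc, one_smul, zero_add]
  have hmon : ∀ p, mon k τ p ∈ LinearMap.range f := by
    have h0 : ∀ a ∈ A, ∀ j : Fin 4, a * u k τ ^ (j : ℕ) ∈ LinearMap.range f := by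
      intro a ha j
      fin_cases j
      · simpa using hf a ha 1 (one_mem _)
      · have : a * u k τ ^ 1 = c⁻¹ • (a * y k τ c) + c⁻¹ • ((a * s k τ) * 1) := by
          rw [pow_one]
          conv_lhs => rw [hu]
          rw [mul_add, mul_smul_comm, mul_smul_comm, mul_one]
        change a * u k τ ^ 1 ∈ _
        rw [this]
        exact add_mem (Submodule.smul_mem _ _ (hf a ha _ hyH))
          (Submodule.smul_mem _ _ (hf _ (mul_mem ha hsA) _ (one_mem _)))
      · have := hf a ha _ hu2
        rw [← pow_two] at this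
        exact this
      · have : a * u k τ ^ 3 = c⁻¹ • (a * (y k τ c * (u k τ * u k τ))) +
            c⁻¹ • ((a * s k τ) * (u k τ * u k τ)) := by
          have : a * u k τ ^ 3 = a * (u k τ * (u k τ * u k τ)) := by
            rw [pow_succ, pow_two, mul_assoc]
          rw [this]
          conv_lhs => enter [2, 1]; rw [hu]
          rw [add_mul, mul_add, smul_mul_assoc, smul_mul_assoc, mul_smul_comm, mul_smul_comm,
            mul_assoc]
        change a * u k τ ^ 3 ∈ _
        rw [this]
        exact add_mem (Submodule.smul_mem _ _ (hf a ha _ (mul_mem hyH hu2)))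
          (Submodule.smul_mem _ _ (hf _ (mul_mem ha hsA) _ hu2))
    rintro ⟨i, j⟩
    exact h0 _ (pow_mem hsA _) j
  have hsurj : Function.Surjective f := by
    rw [← LinearMap.range_eq_top, eq_top_iff, ← span_mon k τ, Submodule.span_le]
    rintro _ ⟨p, rfl⟩
    exact hmon p
  have hdim : Module.finrank k (A ⊗[k] H) = Module.finrank k (E k τ) := by
    refine le_antisymm ?_ (LinearMap.finrank_le_finrank_of_surjective (f := f) hsurj)
    rw [Module.finrank_tensorProduct, finrank_E k τ hτ]
    exact Nat.mul_le_mul (finrank_A_le k τ) (finrank_H_le k τ c)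
  exact ⟨(LinearMap.injective_iff_surjective_of_finrank_eq_finrank hdim).2 hsurj, hsurj⟩

/-! ### The complements are pairwise non-isomorphic -/

/-- The representation with `u ^ 2 = τ`. -/
noncomputable def rho : E k τ →ₐ[k] Matrix (Fin 2) (Fin 2) k := rep k τ 1 τ (by ring)

theorem rho_uu : rho k τ (u k τ * u k τ) = τ • 1 := by
  rw [map_mul, rho, rep_u, U_sq, one_mul]

/-- The image of `H_c` under `ρ` consists of the `a + b ρ(y)`. -/
theorem rep_mem (c : k) (x : E k τ) (hx : x ∈ Algebra.adjoin k {y k τ c}) :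
    ∃ a b : k, rho k τ x = a • 1 + b • rho k τ (y k τ c) := by
  have hY : rho k τ (y k τ c) * rho k τ (y k τ c) =
      rho k τ (y k τ c) + (c ^ 2 * τ) • 1 := by
    rw [← map_mul, y_sq, map_add, map_smul, rho_uu, smul_smul]
  induction hx using Algebra.adjoin_induction with
  | mem x hx =>
    obtain rfl := hx
    exact ⟨0, 1, by rw [zero_smul, one_smul, zero_add]⟩
  | algebraMap r =>
    exact ⟨r, 0, by rw [Algebra.algebraMap_eq_smul_one, map_smul, map_one, zero_smul, add_zero]⟩
  | add x y _ _ hx hy =>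
    obtain ⟨a, b, h⟩ := hx
    obtain ⟨a', b', h'⟩ := hy
    refine ⟨a + a', b + b', ?_⟩
    rw [map_add, h, h']
    module
  | mul x y _ _ hx hy =>
    obtain ⟨a, b, h⟩ := hx
    obtain ⟨a', b', h'⟩ := hy
    refine ⟨a * a' + b * b' * (c ^ 2 * τ), a * b' + b * a' + b * b', ?_⟩
    rw [map_mul, h, h']
    simp only [add_mul, mul_add, smul_mul_assoc, mul_smul_comm, one_mul, mul_one, hY, smul_add,
      smul_smul]
    module

theorem rep_y (c : k) : rho k τ (y k τ c) = !![1, c; c * τ, 0] := by
  rw [rho, y, map_add, map_smul, rep_s, rep_u]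
  ext i j
  fin_cases i <;> fin_cases j <;> simp

theorem isEmpty_algEquiv (c d : k) (hd : d ≠ 0) (h1 : ∀ x : k, x ^ 2 + x ≠ d ^ 2 * τ)
    (h2 : ∀ x : k, x ^ 2 + x ≠ c ^ 2 * τ) (h3 : ∀ x : k, x ^ 2 + x ≠ c ^ 2 * τ + d ^ 2 * τ) :
    IsEmpty (Algebra.adjoin k {y k τ c} ≃ₐ[k] Algebra.adjoin k {y k τ d}) := by
  refine ⟨fun φ => ?_⟩
  let f : Algebra.adjoin k {y k τ c} →ₐ[k] Matrix (Fin 2) (Fin 2) k :=
    ((rho k τ).comp (Algebra.adjoin k {y k τ d}).val).comp φ.toAlgHom
  let yc : Algebra.adjoin k {y k τ c} := ⟨y k τ c, Algebra.subset_adjoin rfl⟩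
  let yd : Algebra.adjoin k {y k τ d} := ⟨y k τ d, Algebra.subset_adjoin rfl⟩
  obtain ⟨a, b, hab⟩ := rep_mem k τ d (φ yc) (φ yc).2
  have hf : f yc = a • 1 + b • !![1, d; d * τ, 0] := by
    rw [rep_y] at hab
    exact hab
  have hw : (yc * yc + yc) * (yc * yc + yc) = (c ^ 2 * τ) • (yc * yc + yc) :=
    Subtype.ext (y_w k τ c)
  have hfw := congrArg f hw
  rw [map_mul, map_smul, map_add, map_mul, hf] at hfw
  have hY : (!![1, d; d * τ, 0] : Matrix (Fin 2) (Fin 2) k) * !![1, d; d * τ, 0] =
      !![1, d; d * τ, 0] + (d ^ 2 * τ) • 1 := by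
    rw [Matrix.mul_fin_two, Matrix.one_fin_two]
    ext i j
    fin_cases i <;> fin_cases j <;> simp <;> ring
  have h20 : (2 : k) = 0 := CharTwo.two_eq_zero
  have hW : ((a • 1 + b • !![1, d; d * τ, 0]) * (a • 1 + b • !![1, d; d * τ, 0]) +
      (a • 1 + b • !![1, d; d * τ, 0]) : Matrix (Fin 2) (Fin 2) k) =
      (a ^ 2 + a + b ^ 2 * (d ^ 2 * τ)) • 1 + (b ^ 2 + b) • !![1, d; d * τ, 0] := by
    simp only [add_mul, mul_add, smul_mul_assoc, mul_smul_comm, one_mul, mul_one, hY, smul_add,
      smul_smul]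
    have := add_self' k ((a * b) • (!![1, d; d * τ, 0] : Matrix (Fin 2) (Fin 2) k))
    linear_combination (norm := module) this
  rw [hW] at hfw
  set p := a ^ 2 + a + b ^ 2 * (d ^ 2 * τ) with hp
  set q := b ^ 2 + b with hq
  have hPP : ((p • 1 + q • !![1, d; d * τ, 0]) * (p • 1 + q • !![1, d; d * τ, 0]) :
      Matrix (Fin 2) (Fin 2) k) =
      (p ^ 2 + q ^ 2 * (d ^ 2 * τ)) • 1 + q ^ 2 • !![1, d; d * τ, 0] := by
    simp only [add_mul, mul_add, smul_mul_assoc, mul_smul_comm, one_mul, mul_one, hY, smul_add,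
      smul_smul]
    have := add_self' k ((p * q) • (!![1, d; d * τ, 0] : Matrix (Fin 2) (Fin 2) k))
    linear_combination (norm := module) this
  rw [hPP] at hfw
  have e11 : p ^ 2 + q ^ 2 * (d ^ 2 * τ) = (c ^ 2 * τ) * p := by
    simpa using congrFun (congrFun hfw 1) 1
  have e01 : q ^ 2 * d = (c ^ 2 * τ) * (q * d) := by
    simpa using congrFun (congrFun hfw 0) 1
  have hb : b ≠ 0 := by
    rintro rfl
    have key : ∀ x (hx : x ∈ Algebra.adjoin k {y k τ c}), ∃ r : k, f ⟨x, hx⟩ = r • 1 := by
      intro x hx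
      induction hx using Algebra.adjoin_induction with
      | mem x hx =>
        obtain rfl := hx
        exact ⟨a, by rw [← add_zero (a • 1), ← zero_smul k !![1, d; d * τ, 0]]; exact hf⟩
      | algebraMap r =>
        exact ⟨r, by
          rw [← Algebra.algebraMap_eq_smul_one]
          exact f.commutes r⟩
      | add x y hx' hy' hx hy =>
        obtain ⟨a, h⟩ := hx
        obtain ⟨b, h'⟩ := hy
        refine ⟨a + b, ?_⟩
        rw [add_smul, ← h, ← h', ← map_add]
        rfl
      | mul x y hx' hy' hx hy =>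
        obtain ⟨a, h⟩ := hx
        obtain ⟨b, h'⟩ := hy
        refine ⟨a * b, ?_⟩
        rw [← one_mul (1 : Matrix (Fin 2) (Fin 2) k), ← smul_mul_smul_comm, ← h, ← h', ← map_mul]
        rfl
    obtain ⟨r, hr⟩ := key (φ.symm yd) (φ.symm yd).2
    have hr' : f (φ.symm yd) = !![1, d; d * τ, 0] := by
      change rho k τ (φ (φ.symm yd)) = _
      rw [AlgEquiv.apply_symm_apply, ← rep_y]
    have h01 := congrFun (congrFun (hr'.symm.trans hr) 0) 1
    simp at h01
    exact hd h01
  have hq0 : q = 0 := by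
    by_contra hq0
    refine h2 b ?_
    rw [← hq]
    apply mul_right_cancel₀ (mul_ne_zero hq0 hd)
    linear_combination e01
  have hb1 : b = 1 := by
    have : b * (b + 1) = 0 := by
      linear_combination hq0
    rcases mul_eq_zero.1 this with h | h
    · exact absurd h hb
    · linear_combination h - h20
  rw [hq0] at e11
  have hp2 : p * (p + c ^ 2 * τ) = 0 := by
    linear_combination e11 + c ^ 2 * τ * p * h20
  rcases mul_eq_zero.1 hp2 with h | h
  · refine h1 a ?_
    rw [hp, hb1] at h
    linear_combination h - d ^ 2 * τ * h20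
  · refine h3 a ?_
    rw [hp, hb1] at h
    linear_combination h - d ^ 2 * τ * h20 - c ^ 2 * τ * h20

end construction

theorem no_root {F : Type} [Field F] [CharP F 2] (c r : RatFunc F) (m : ℕ)
    (hr : r.intDegree = 2 * m + 1) : c ^ 2 + c ≠ r := by
  intro h
  have hr0 : r ≠ 0 := by
    rintro rfl
    rw [RatFunc.intDegree_zero] at hr
    omega
  have hc0 : c ≠ 0 := by
    rintro rfl
    apply hr0
    rw [← h]
    ring
  have h2 : (c ^ 2).intDegree = 2 * c.intDegree := by
    rw [pow_two, RatFunc.intDegree_mul hc0 hc0]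
    ring
  have h3 : r.intDegree ≤ max (c ^ 2).intDegree c.intDegree := by
    rw [← h]
    exact RatFunc.intDegree_add_le hc0 (by rw [h]; exact hr0)
  have h4 : c ^ 2 = r + c := by
    rw [← h, add_assoc, CharTwo.add_self_eq_zero, add_zero]
  have h5 : (c ^ 2).intDegree ≤ max r.intDegree c.intDegree := by
    rw [h4]
    refine RatFunc.intDegree_add_le hc0 ?_
    rw [← h4]
    exact pow_ne_zero 2 hc0
  omega

theorem deg_pow {F : Type} [Field F] (m : ℕ) :
    ((RatFunc.X : RatFunc F) ^ (2 * m + 1)).intDegree = 2 * m + 1 := by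
  have : (RatFunc.X : RatFunc F) ^ (2 * m + 1) =
      algebraMap (Polynomial F) (RatFunc F) (Polynomial.X ^ (2 * m + 1)) := by
    rw [map_pow, RatFunc.algebraMap_X]
  rw [this, RatFunc.intDegree_polynomial, Polynomial.natDegree_X_pow]
  push_cast
  ring

theorem deg_pow_add {F : Type} [Field F] (m n : ℕ) (h : m < n) :
    ((RatFunc.X : RatFunc F) ^ (2 * m + 1) + RatFunc.X ^ (2 * n + 1)).intDegree =
      2 * (n : ℤ) + 1 := by
  have : (RatFunc.X : RatFunc F) ^ (2 * m + 1) + RatFunc.X ^ (2 * n + 1) =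
      algebraMap (Polynomial F) (RatFunc F)
        (Polynomial.X ^ (2 * m + 1) + Polynomial.X ^ (2 * n + 1)) := by
    rw [map_add, map_pow, map_pow, RatFunc.algebraMap_X]
  rw [this, RatFunc.intDegree_polynomial, Polynomial.natDegree_add_eq_right_of_natDegree_lt,
    Polynomial.natDegree_X_pow]
  · push_cast
    ring
  · simp [h]

/-- **There is a finite-dimensional Hopf algebra with a Hopf subalgebra of infinite factorization
index.** -/
theorem result : ∃ (k : Type) (_ : Field k) (E : Type) (_ : Ring E) (_ : HopfAlgebra k E),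
    HasInfiniteIndex k E := by
  let k := RatFunc (ZMod 2)
  let τ : k := RatFunc.X
  have hτ : τ ≠ 0 := RatFunc.X_ne_zero
  refine ⟨k, inferInstance, E k τ, inferInstance, hopf k τ, ?_⟩
  let := hopf k τ
  refine ⟨inferInstance, Algebra.adjoin k {s k τ}, ?_, fun n => Algebra.adjoin k {y k τ (τ ^ n)},
    fun n => ⟨isHopfSubalgebra k τ _, isComplement k τ hτ _ (pow_ne_zero _ hτ)⟩, ?_⟩
  · have h := isHopfSubalgebra k τ 0
    rw [y, zero_smul, add_zero] at h
    exact h
  · intro m n hmn
    have he : ∀ j : ℕ, (τ ^ j) ^ 2 * τ = τ ^ (2 * j + 1) := fun j => by ring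
    refine isEmpty_algEquiv k τ _ _ (pow_ne_zero _ hτ) ?_ ?_ ?_
    · intro x
      rw [he]
      exact no_root x _ n (deg_pow n)
    · intro x
      rw [he]
      exact no_root x _ m (deg_pow m)
    · intro x
      rw [he, he]
      rcases lt_or_gt_of_ne hmn with h | h
      · exact no_root x _ n (deg_pow_add m n h)
      · rw [add_comm (τ ^ _)]
        exact no_root x _ m (deg_pow_add n m h)

end Pool.Agent.Results.MP_d8e1db_al.InfiniteIndex
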